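import Mathlib

set_option autoImplicit false
open Set Filter Topology Metric

namespace Pool.Agent.Results.MP_51e19e_an.SmallO

/-- the signed series (the index n of the sequence stands for n + 1) -/
noncomputable def f (a : ℕ → ℝ) (t : ℝ) : ℝ := ∑' n : ℕ, a n / (t ^ 2 + ((n : ℝ) + 1) ^ 2)

/-- the real zeros in the open interval from -X to X -/
def zeros (a : ℕ → ℝ) (X : ℝ) : Set ℝ := {t | |t| < X ∧ f a t = 0}

def H : Set ℂ := {z | 0 < z.re}

theorem H_open : IsOpen H := isOpen_lt continuous_const Complex.continuous_re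

theorem schwarzH (g : ℂ → ℂ) (M a : ℝ) (ha : 0 < a) (hg : DifferentiableOn ℂ g H)
    (hM : ∀ z ∈ H, ‖g z‖ ≤ M) (h0 : g a = 0) (z : ℂ) (hz : z ∈ H) :
    ‖g z‖ * ‖z + a‖ ≤ M * ‖z - a‖ := by
  have hne : ∀ w ∈ ball (0 : ℂ) 1, 1 - w ≠ 0 := fun w hw h => by
    rw [← sub_eq_zero.mp h] at hw; simp at hw
  have hmap : ∀ w ∈ ball (0 : ℂ) 1, (a : ℂ) * (1 + w) / (1 - w) ∈ H := by
    intro w hw
    have h1 := Complex.normSq_pos.mpr (hne w hw)
    rw [mem_ball_zero_iff] at hw
    have h2 : w.re ^ 2 + w.im ^ 2 < 1 := by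
      have := Complex.sq_norm w
      rw [Complex.normSq_apply] at this
      nlinarith [norm_nonneg w]
    show 0 < Complex.re _
    rw [Complex.div_re, ← add_div]
    apply div_pos _ h1
    simp
    nlinarith
  have hd : DifferentiableOn ℂ (fun w => g (a * (1 + w) / (1 - w))) (ball 0 1) :=
    hg.comp (f := fun w : ℂ => (a : ℂ) * (1 + w) / (1 - w))
      (DifferentiableOn.div (by fun_prop) (by fun_prop) hne) hmap
  have hza : z + a ≠ 0 := fun h => by
    have := congrArg Complex.re h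
    have hz' : 0 < z.re := hz
    simp at this; linarith
  have hw : (z - a) / (z + a) ∈ ball (0 : ℂ) 1 := by
    rw [mem_ball_zero_iff, norm_div, div_lt_one (norm_pos_iff.mpr hza), ← sq_lt_sq₀ (norm_nonneg _)
      (norm_nonneg _), Complex.sq_norm, Complex.sq_norm, Complex.normSq_apply, Complex.normSq_apply]
    have hz' : 0 < z.re := hz
    simp
    nlinarith
  have := Complex.dist_le_div_mul_dist_of_mapsTo_ball (R₂ := M) hd (fun w hw => by
    simpa [h0] using hM _ (hmap w hw)) hw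
  have ha' : (a : ℂ) ≠ 0 := by exact_mod_cast ha.ne'
  have e : (a : ℂ) * (1 + (z - a) / (z + a)) / (1 - (z - a) / (z + a)) = z := by
    have : 1 - (z - a) / (z + a) = 2 * a / (z + a) := by field_simp; ring
    rw [this]; field_simp; ring
  simp only [e] at this
  simp [h0, norm_div] at this
  rw [← le_div_iff₀ (norm_pos_iff.mpr hza), mul_div_assoc]
  exact this

theorem blaschke (M w : ℝ) (hw : 0 < w) (S : Finset ℝ) : ∀ (g : ℂ → ℂ), DifferentiableOn ℂ g H →
    (∀ z ∈ H, ‖g z‖ ≤ M) → (∀ a ∈ S, w < a ∧ g a = 0) →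
    ‖g w‖ ≤ M * ∏ a ∈ S, ((a - w) / (a + w)) := by
  classical
  induction S using Finset.induction_on with
  | empty => intro g _ h _; simpa using h w (by simpa [H] using hw)
  | insert a S haS ih =>
    intro g hg hM h0
    obtain ⟨ha, hga⟩ := h0 a (Finset.mem_insert_self _ _)
    have ha0 : 0 < a := hw.trans ha
    have haH : (a : ℂ) ∈ H := by simpa [H] using ha0
    have hd : DifferentiableOn ℂ (fun z => (z + a) * dslope g a z) H :=
      DifferentiableOn.mul (by fun_prop)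
        ((Complex.differentiableOn_dslope (H_open.mem_nhds haH)).mpr hg)
    have hval : ∀ z : ℂ, z ≠ a → (z + a) * dslope g a z = g z * (z + a) / (z - a) := by
      intro z hz
      rw [dslope_of_ne _ hz, slope_def_field, hga]
      ring
    have hb1 : ∀ z ∈ H, z ≠ a → ‖(z + a) * dslope g a z‖ ≤ M := by
      intro z hz hne
      rw [hval z hne, norm_div, norm_mul, div_le_iff₀ (norm_pos_iff.mpr (sub_ne_zero.mpr hne))]
      exact schwarzH g M a ha0 hg hM hga z hz
    have hb : ∀ z ∈ H, ‖(z + a) * dslope g a z‖ ≤ M := by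
      intro z hz
      by_cases hne : z = a
      · subst hne
        have hc := (hd.continuousOn.continuousAt (H_open.mem_nhds haH)).norm.tendsto.mono_left
          (nhdsWithin_le_nhds (s := {(a : ℂ)}ᶜ))
        refine le_of_tendsto hc ?_
        filter_upwards [self_mem_nhdsWithin, nhdsWithin_le_nhds (H_open.mem_nhds haH)] with z h1 h2
        exact hb1 z h2 h1
      · exact hb1 z hz hne
    have := ih _ hd hb fun b hb => by
      obtain ⟨h1, h2⟩ := h0 b (Finset.mem_insert_of_mem hb)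
      refine ⟨h1, ?_⟩
      have : (b : ℂ) ≠ a := by
        intro h
        exact haS (by rwa [← Complex.ofReal_injective h])
      rw [hval _ this, h2]; simp
    have hne : (w : ℂ) ≠ a := by exact_mod_cast ha.ne
    rw [hval _ hne, norm_div, norm_mul, ← Complex.ofReal_add, ← Complex.ofReal_sub, Complex.norm_real,
      Complex.norm_real, Real.norm_eq_abs, Real.norm_eq_abs, abs_of_pos (by linarith),
      abs_of_neg (by linarith), div_le_iff₀ (by linarith), ← le_div_iff₀ (by linarith)] at this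
    rw [Finset.prod_insert haS]
    refine this.trans_eq ?_
    rw [add_comm w a]
    ring

noncomputable def F (a : ℕ → ℝ) (z : ℂ) : ℂ := ∑' n : ℕ, (a n : ℂ) / ((z + 1 / 4) ^ 2 + ((n : ℂ) + 1) ^ 2)

theorem lower (z : ℂ) (hz : z ∈ H) (s : ℝ) :
    ‖z + 1 / 4 + s * Complex.I‖ ^ 2 ≥ 1 / 16 + (z.im + s) ^ 2 := by
  have hz' : 0 < z.re := hz
  rw [Complex.sq_norm, Complex.normSq_apply]
  simp
  nlinarith

theorem fac (z : ℂ) (n : ℕ) : ‖(z + 1 / 4) ^ 2 + ((n : ℂ) + 1) ^ 2‖ =
    ‖z + 1 / 4 + ((n + 1 : ℝ) : ℂ) * Complex.I‖ * ‖z + 1 / 4 + ((-(n + 1) : ℝ) : ℂ) * Complex.I‖ := by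
  rw [← norm_mul]
  congr 1
  push_cast
  linear_combination ((n : ℂ) + 1) ^ 2 * Complex.I_sq

theorem sum2 : Summable fun n : ℕ => 1 / ((n : ℝ) + 1) ^ 2 := by
  simpa using (summable_nat_add_iff 1).mpr (Real.summable_one_div_nat_pow.mpr one_lt_two)

theorem F_diff (a : ℕ → ℝ) (ha : ∀ n, |a n| = 1) : DifferentiableOn ℂ (F a) H := by
  intro z hz
  set R := ‖z‖ + 2 with hR
  have ho : IsOpen (H ∩ ball 0 (R - 1)) := H_open.inter isOpen_ball
  have hlow : ∀ w ∈ H, ∀ n : ℕ, 1 / 16 ≤ ‖(w + 1 / 4) ^ 2 + ((n : ℂ) + 1) ^ 2‖ := by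
    intro w hw n
    rw [fac]
    have h1 := lower w hw (n + 1)
    have h2 := lower w hw (-(n + 1))
    have k : ∀ x : ℝ, 0 ≤ x → ∀ y : ℝ, x ^ 2 ≥ 1 / 16 + y ^ 2 → 1 / 4 ≤ x := fun x hx y h => by
      nlinarith [sq_nonneg y]
    have := mul_le_mul (k _ (norm_nonneg _) _ h1) (k _ (norm_nonneg _) _ h2) (by norm_num) (norm_nonneg _)
    linarith
  have := Complex.differentiableOn_tsum_of_summable_norm (U := H ∩ ball 0 (R - 1))
    (F := fun n w => (a n : ℂ) / ((w + 1 / 4) ^ 2 + ((n : ℂ) + 1) ^ 2))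
    (sum2.mul_left (1 + 16 * R ^ 2)) (fun n => DifferentiableOn.div (by fun_prop) (by fun_prop)
      fun w hw h => by have := hlow w hw.1 n; rw [h] at this; norm_num at this) ho (by
      intro n w hw
      have h1 := hlow w hw.1 n
      have h2 : ‖w + 1 / 4‖ ≤ R := by
        have := norm_add_le w (1 / 4)
        have h3 := mem_ball_zero_iff.mp hw.2
        simp at this ⊢
        linarith
      have h3 := norm_sub_le ((w + 1 / 4) ^ 2 + ((n : ℂ) + 1) ^ 2) ((w + 1 / 4) ^ 2)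
      have h4 : ‖((n : ℂ) + 1) ^ 2‖ = ((n : ℝ) + 1) ^ 2 := by
        rw [norm_pow]; norm_cast
      rw [add_sub_cancel_left, h4, norm_pow] at h3
      rw [norm_div, Complex.norm_real, Real.norm_eq_abs, ha, mul_one_div,
        div_le_div_iff₀ (by linarith) (by positivity)]
      have : ‖w + 1 / 4‖ ^ 2 ≤ R ^ 2 := by gcongr
      nlinarith [sq_nonneg R])
  exact (this.differentiableAt (ho.mem_nhds ⟨hz, by simp [hR]; linarith⟩)).differentiableWithinAt

theorem sumZ : Summable fun m : ℤ => 48 / (1 + (m : ℝ) ^ 2) := by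
  have h : Summable fun n : ℕ => 48 / (1 + (n : ℝ) ^ 2) := by
    rw [← summable_nat_add_iff 1]
    refine Summable.of_nonneg_of_le (fun n => by positivity) (fun n => ?_) (sum2.mul_left 48)
    rw [mul_one_div]
    push_cast
    gcongr
    linarith
  exact Summable.of_nat_of_neg (by simpa using h) (by simpa using h)

theorem F_bdd (a : ℕ → ℝ) (ha : ∀ n, |a n| = 1) (z : ℂ) (hz : z ∈ H) :
    ‖F a z‖ ≤ ∑' m : ℤ, 48 / (1 + (m : ℝ) ^ 2) := by
  set k := ⌊z.im⌋
  have hk1 := Int.floor_le z.im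
  have hk2 := Int.lt_floor_add_one z.im
  have i1 : Function.Injective fun n : ℕ => k + (n + 1 : ℤ) := fun x y h => by simpa using h
  have i2 : Function.Injective fun n : ℕ => k - (n + 1 : ℤ) := fun x y h => by simpa using h
  have s1 := sumZ.comp_injective i1
  have s2 := sumZ.comp_injective i2
  have b1 := tsum_comp_le_tsum_of_inj sumZ (fun m => by positivity) i1
  have b2 := tsum_comp_le_tsum_of_inj sumZ (fun m => by positivity) i2
  refine (tsum_of_norm_bounded ((s1.hasSum.add s2.hasSum).div_const 2) fun n => ?_).trans (by linarith)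
  rw [norm_div, Complex.norm_real, Real.norm_eq_abs, ha, fac]
  have h1 := lower z hz (n + 1)
  have h2 := lower z hz (-(n + 1))
  set x := ‖z + 1 / 4 + ((n + 1 : ℝ) : ℂ) * Complex.I‖
  set y := ‖z + 1 / 4 + ((-(n + 1) : ℝ) : ℂ) * Complex.I‖
  have hx : 0 < x := lt_of_le_of_ne (norm_nonneg _) fun h => by
    rw [← h] at h1; nlinarith [sq_nonneg (z.im + (n + 1))]
  have hy : 0 < y := lt_of_le_of_ne (norm_nonneg _) fun h => by
    rw [← h] at h2; nlinarith [sq_nonneg (z.im + -(n + 1))]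
  have key : ∀ (u s : ℝ), 0 < u → u ^ 2 ≥ 1 / 16 + (z.im + s) ^ 2 →
      1 / u ^ 2 ≤ 48 / (1 + ((k : ℝ) + s) ^ 2) := by
    intro u s hu h
    rw [div_le_div_iff₀ (by positivity) (by positivity)]
    have e : (k : ℝ) + s = (z.im + s) - (z.im - k) := by ring
    have : (z.im - k) ^ 2 ≤ 1 := by nlinarith
    rw [e]
    nlinarith [sq_nonneg ((z.im + s) + (z.im - k))]
  have k1 := key x _ hx h1
  have k2 := key y _ hy h2
  have k3 : 1 / (x * y) ≤ (1 / x ^ 2 + 1 / y ^ 2) / 2 := by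
    rw [← sub_nonneg]
    have : (1 / x ^ 2 + 1 / y ^ 2) / 2 - 1 / (x * y) = (1 / x - 1 / y) ^ 2 / 2 := by
      field_simp; ring
    rw [this]; positivity
  simp only [Function.comp]
  push_cast
  rw [sub_eq_add_neg (k : ℝ)]
  linarith

theorem F_real (a : ℕ → ℝ) (t : ℝ) : F a ((t - 1 / 4 : ℝ) : ℂ) = f a t := by
  simp [F, f, Complex.ofReal_tsum]

theorem small (a : ℕ → ℝ) (ha : ∀ n, |a n| = 1) (t : ℝ) (ht : |t| ≤ 1 / 2) : f a t ≠ 0 := by
  have hb : ∀ n : ℕ, ‖a n / (t ^ 2 + ((n : ℝ) + 1) ^ 2)‖ ≤ 1 / ((n : ℝ) + 1) ^ 2 := fun n => by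
    rw [norm_div, Real.norm_eq_abs, ha, Real.norm_eq_abs, abs_of_pos (by positivity)]
    gcongr
    nlinarith [sq_nonneg t]
  have hs := Summable.of_norm_bounded sum2 hb
  have hz : HasSum (fun n : ℕ => 1 / (((n + 1 : ℕ) : ℝ) + 1) ^ 2) (Real.pi ^ 2 / 6 - 1) := by
    have := (hasSum_nat_add_iff' 2).mpr hasSum_zeta_two
    have e : (fun n : ℕ => 1 / (((n + 1 : ℕ) : ℝ) + 1) ^ 2) = fun n : ℕ => 1 / ((n + 2 : ℕ) : ℝ) ^ 2 := by
      funext n; push_cast; ring
    rw [e]
    simpa [Finset.sum_range_succ] using this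
  have h2 := tsum_of_norm_bounded hz fun n => hb (n + 1)
  intro h
  rw [f, hs.tsum_eq_zero_add] at h
  rw [eq_neg_of_add_eq_zero_right h, norm_neg, norm_div, Real.norm_eq_abs, ha, Real.norm_eq_abs,
    abs_of_pos (by positivity), div_le_iff₀ (by positivity)] at h2
  have p1 := Real.pi_lt_d2
  have p2 := Real.pi_gt_three
  have t2 : t ^ 2 ≤ 1 / 4 := by rw [← sq_abs]; nlinarith [abs_nonneg t]
  have p3 : Real.pi ^ 2 / 6 - 1 ≤ 0.66 := by nlinarith
  simp at h2
  nlinarith [sq_nonneg t]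

theorem summ (a : ℕ → ℝ) (ha : ∀ n, |a n| = 1) :
    Summable fun t : {t : ℝ // 1 / 2 < t ∧ f a t = 0} => 1 / t.1 := by
  classical
  set M := ∑' m : ℤ, 48 / (1 + (m : ℝ) ^ 2)
  have h0 : 0 < |f a (1 / 2)| := abs_pos.mpr (small a ha _ (by norm_num [abs_of_pos]))
  refine summable_of_sum_le (c := 2 * Real.log (M / |f a (1 / 2)|))
    (fun t => by have := t.2.1; simp only [Pi.zero_apply]; positivity) fun S => ?_
  have := blaschke M (1 / 2 - 1 / 4) (by norm_num) (S.image fun t => t.1 - 1 / 4) (F a) (F_diff a ha)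
    (F_bdd a ha) (by
      intro b hb
      obtain ⟨t, _, rfl⟩ := Finset.mem_image.mp hb
      exact ⟨by linarith [t.2.1], by rw [F_real, t.2.2]; simp⟩)
  rw [F_real, Complex.norm_real, Real.norm_eq_abs, Finset.prod_image
    (fun x _ y _ h => Subtype.ext (by simpa using h))] at this
  have hp : ∏ t ∈ S, ((t.1 - 1 / 4 - (1 / 2 - 1 / 4)) / (t.1 - 1 / 4 + (1 / 2 - 1 / 4))) ≤
      Real.exp (-(∑ t ∈ S, 1 / t.1) / 2) := by
    rw [← Finset.sum_neg_distrib, Finset.sum_div, Real.exp_sum]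
    refine Finset.prod_le_prod (fun t _ => ?_) fun t _ => ?_
    · have := t.2.1
      exact div_nonneg (by linarith) (by linarith)
    · have := t.2.1
      refine le_trans (le_of_eq ?_) (Real.add_one_le_exp _)
      have : t.1 ≠ 0 := by linarith
      rw [show t.1 - 1 / 4 + (1 / 2 - 1 / 4) = t.1 by ring]
      field_simp
      ring
  have hM : 0 ≤ M := tsum_nonneg fun m => by positivity
  have h1 := this.trans (mul_le_mul_of_nonneg_left hp hM)
  have h2 : Real.exp ((∑ t ∈ S, 1 / t.1) / 2) ≤ M / |f a (1 / 2)| := by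
    rw [le_div_iff₀ h0]
    rw [neg_div, Real.exp_neg, ← div_eq_mul_inv, le_div_iff₀ (Real.exp_pos _)] at h1
    linarith
  have := (Real.le_log_iff_exp_le (lt_of_lt_of_le (Real.exp_pos _) h2)).mpr h2
  linarith

theorem count (a : ℕ → ℝ) (ha : ∀ n, |a n| = 1) (ε : ℝ) (hε : 0 < ε) : ∃ C : ℝ, ∀ X : ℝ, 0 < X →
    (zeros a X).Finite ∧ ((zeros a X).ncard : ℝ) ≤ C + 2 * ε * X := by
  classical
  obtain ⟨S, hS⟩ := (summ a ha).vanishing (Metric.ball_mem_nhds 0 hε)
  refine ⟨2 * S.card, fun X hX => ?_⟩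
  set P : Set {t : ℝ // 1 / 2 < t ∧ f a t = 0} := {t | t.1 < X} with hP
  have hb : ∀ T : Finset {t : ℝ // 1 / 2 < t ∧ f a t = 0}, (T : Set _) ⊆ P →
      (T.card : ℝ) ≤ S.card + ε * X := by
    intro T hT
    have h1 := hS (T \ S) Finset.sdiff_disjoint
    rw [mem_ball_zero_iff, Real.norm_eq_abs] at h1
    have h2 : ((T \ S).card : ℝ) * (1 / X) ≤ ∑ t ∈ T \ S, 1 / t.1 := by
      rw [← nsmul_eq_mul]
      refine Finset.card_nsmul_le_sum _ _ _ fun t ht => ?_
      have h3 : t.1 < X := hT (Finset.mem_sdiff.mp ht).1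
      have := t.2.1
      gcongr
    have h3 : (T.card : ℝ) ≤ S.card + (T \ S).card := by
      exact_mod_cast (Finset.le_card_sdiff S T |> fun h => by omega : T.card ≤ S.card + (T \ S).card)
    rw [mul_one_div, div_le_iff₀ hX] at h2
    nlinarith [le_abs_self (∑ t ∈ T \ S, 1 / t.1)]
  have hfin : P.Finite := by
    by_contra h
    obtain ⟨n, hn⟩ := exists_nat_gt (S.card + ε * X)
    obtain ⟨T, h1, h2⟩ := Set.Infinite.exists_subset_card_eq h n
    have := hb T h1
    rw [h2] at this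
    linarith
  have hc : (P.ncard : ℝ) ≤ S.card + ε * X := by
    rw [Set.ncard_eq_toFinset_card P hfin]
    exact hb _ (by simp)
  have hsub : zeros a X ⊆ (fun t => t.1) '' P ∪ (fun t => -t.1) '' P := by
    rintro t ⟨h1, h2⟩
    have h3 : 1 / 2 < |t| := lt_of_not_ge fun h => small a ha t h h2
    rcases le_total 0 t with h | h
    · rw [abs_of_nonneg h] at h1 h3
      exact Or.inl ⟨⟨t, h3, h2⟩, h1, rfl⟩
    · rw [abs_of_nonpos h] at h1 h3
      exact Or.inr ⟨⟨-t, h3, by simpa [f] using h2⟩, h1, by simp⟩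
  have hf2 := (hfin.image fun t => t.1).union (hfin.image fun t => -t.1)
  refine ⟨hf2.subset hsub, ?_⟩
  have h1 := (Set.ncard_le_ncard hsub hf2).trans ((Set.ncard_union_le _ _).trans
    (add_le_add (Set.ncard_image_le hfin) (Set.ncard_image_le hfin)))
  have : ((zeros a X).ncard : ℝ) ≤ P.ncard + P.ncard := by exact_mod_cast h1
  linarith

theorem result (a : ℕ → ℝ) (ha : ∀ n, a n = 1 ∨ a n = -1) :
    (∀ X : ℝ, (zeros a X).Finite) ∧
      Tendsto (fun X : ℝ => ((zeros a X).ncard : ℝ) / X) atTop (𝓝 0) := by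
  have ha' : ∀ n, |a n| = 1 := fun n => by rcases ha n with h | h <;> simp [h]
  constructor
  · intro X
    obtain ⟨C, hC⟩ := count a ha' 1 one_pos
    exact (hC (|X| + 1) (by positivity)).1.subset fun t ht =>
      ⟨by linarith [ht.1, le_abs_self X], ht.2⟩
  · rw [Metric.tendsto_atTop]
    intro ε hε
    obtain ⟨C, hC⟩ := count a ha' (ε / 4) (by positivity)
    refine ⟨2 * |C| / ε + 1, fun X hX => ?_⟩
    have h0 : 0 ≤ 2 * |C| / ε := by positivity
    have hX0 : 0 < X := by linarith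
    have h1 : 2 * |C| / ε < X := by linarith
    rw [div_lt_iff₀ hε] at h1
    rw [Real.dist_eq, sub_zero, abs_of_nonneg (by positivity), div_lt_iff₀ hX0]
    nlinarith [(hC X hX0).2, le_abs_self C]

end Pool.Agent.Results.MP_51e19e_an.SmallO
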